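import Mathlib
import Pool.Agent.TH314.PD.UB

/-!
# Bezout bound with weights: some variables separately (degree at most `e`), the others together
-/

set_option autoImplicit false

namespace Pool.Agent.TH920.MD

open MvPolynomial Pool.Agent.TH314.PD

/-- the asymptotic step -/
theorem asym4 {A P s q u v c : ℕ}
    (h : ∀ l : ℕ, A * (l + (s + q)).choose (s + q) ≤
      P * ((u * l + c + 1) ^ s * (v * l + c + q).choose q)) :
    A * q.factorial ≤ ((s + q).factorial * P) * (u ^ s * v ^ q) := by
  have h1 : ∀ l : ℕ, A * q.factorial * (l + 1) ^ (s + q) ≤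
      ((s + q).factorial * P) * ((u * l + c + 1) ^ s * (v * l + c + q) ^ q) := by
    intro l
    calc A * q.factorial * (l + 1) ^ (s + q) ≤ A * q.factorial * (l + 1).ascFactorial (s + q) :=
          Nat.mul_le_mul_left _ (Nat.pow_succ_le_ascFactorial _ _)
      _ = (s + q).factorial * (q.factorial * (A * (l + (s + q)).choose (s + q))) := by
          rw [Nat.ascFactorial_eq_factorial_mul_choose]; ring
      _ ≤ (s + q).factorial * (q.factorial *
            (P * ((u * l + c + 1) ^ s * (v * l + c + q).choose q))) :=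
          Nat.mul_le_mul_left _ (Nat.mul_le_mul_left _ (h l))
      _ = ((s + q).factorial * P) * ((u * l + c + 1) ^ s * (v * l + c + 1).ascFactorial q) := by
          rw [Nat.ascFactorial_eq_factorial_mul_choose]
          ring
      _ ≤ ((s + q).factorial * P) * ((u * l + c + 1) ^ s * (v * l + c + q) ^ q) :=
          Nat.mul_le_mul_left _ (Nat.mul_le_mul_left _ (Nat.ascFactorial_le_pow_add _ _))
  have h2 : ∀ l : ℕ, ((A : ℝ) * (q.factorial : ℝ)) ≤ (((s + q).factorial : ℝ) * (P : ℝ)) *
      (((u : ℝ) + ((c : ℝ) + 1 - u) * (1 / ((l : ℝ) + 1))) ^ s *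
      ((v : ℝ) + ((c : ℝ) + q - v) * (1 / ((l : ℝ) + 1))) ^ q) := by
    intro l
    have hL : (0 : ℝ) < (l : ℝ) + 1 := by positivity
    have h3 : (A : ℝ) * (q.factorial : ℝ) * ((l : ℝ) + 1) ^ (s + q) ≤
        (((s + q).factorial : ℝ) * (P : ℝ)) *
          (((u : ℝ) * l + c + 1) ^ s * ((v : ℝ) * l + c + q) ^ q) := by
      exact_mod_cast h1 l
    have h4 : (v : ℝ) + ((c : ℝ) + q - v) * (1 / ((l : ℝ) + 1)) =
        ((v : ℝ) * l + c + q) / (l + 1) := by
      field_simp
      ring
    have h5 : (u : ℝ) + ((c : ℝ) + 1 - u) * (1 / ((l : ℝ) + 1)) =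
        ((u : ℝ) * l + c + 1) / (l + 1) := by
      field_simp
      ring
    rw [h4, h5, div_pow, div_pow, div_mul_div_comm, ← pow_add, mul_div_assoc',
      le_div_iff₀ (by positivity)]
    exact h3
  have h5 : Filter.Tendsto (fun l : ℕ => (((s + q).factorial : ℝ) * (P : ℝ)) *
      (((u : ℝ) + ((c : ℝ) + 1 - u) * (1 / ((l : ℝ) + 1))) ^ s *
      ((v : ℝ) + ((c : ℝ) + q - v) * (1 / ((l : ℝ) + 1))) ^ q)) Filter.atTop
      (nhds ((((s + q).factorial : ℝ) * (P : ℝ)) * (((u : ℝ) + ((c : ℝ) + 1 - u) * 0) ^ s *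
        ((v : ℝ) + ((c : ℝ) + q - v) * 0) ^ q))) := by
    have h6 := tendsto_one_div_add_atTop_nhds_zero_nat (𝕜 := ℝ)
    exact (((tendsto_const_nhds.add (tendsto_const_nhds.mul h6)).pow s).mul
      ((tendsto_const_nhds.add (tendsto_const_nhds.mul h6)).pow q)).const_mul _
  have h6 := ge_of_tendsto' h5 h2
  rw [mul_zero, add_zero, mul_zero, add_zero] at h6
  exact_mod_cast h6

section BS

variable {L : Type} [Field L] {n : ℕ}

/-- degree at most `a` in the variable `none`, at most `e * a` in each variable outside `S`, degree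
at most `b` in the variables of `S` together -/
def BS (S : Finset (Fin n)) (e a b : ℕ) (f : MvPolynomial (Option (Fin n)) L) : Prop :=
  ∀ α ∈ f.support, α none ≤ a ∧ (∀ l, l ∉ S → α (some l) ≤ e * a) ∧ ∑ l ∈ S, α (some l) ≤ b

variable {S : Finset (Fin n)} {e : ℕ}

theorem BS.mono {a b a' b' : ℕ} {f : MvPolynomial (Option (Fin n)) L} (h : BS S e a b f)
    (ha : a ≤ a') (hb : b ≤ b') : BS S e a' b' f :=
  fun α hα => ⟨(h α hα).1.trans ha, fun l hl => ((h α hα).2.1 l hl).trans
    (Nat.mul_le_mul_left _ ha), (h α hα).2.2.trans hb⟩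

theorem BS.mul {a b a' b' : ℕ} {f g : MvPolynomial (Option (Fin n)) L} (hf : BS S e a b f)
    (hg : BS S e a' b' g) : BS S e (a + a') (b + b') (f * g) := by
  classical
  intro α hα
  obtain ⟨β, hβ, γ, hγ, rfl⟩ := Finset.mem_add.1 (MvPolynomial.support_mul f g hα)
  have h1 := hf β hβ
  have h2 := hg γ hγ
  refine ⟨?_, fun l hl => ?_, ?_⟩
  · rw [Finsupp.add_apply]
    omega
  · rw [Finsupp.add_apply, mul_add]
    have := h1.2.1 l hl
    have := h2.2.1 l hl
    omega
  · simp only [Finsupp.add_apply, Finset.sum_add_distrib]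
    omega

theorem BS.one : BS S e 0 0 (1 : MvPolynomial (Option (Fin n)) L) := by
  classical
  intro α hα
  have h1 : α = 0 := by
    by_contra h
    rw [mem_support_iff, coeff_one, if_neg (fun h' => h h'.symm)] at hα
    exact hα rfl
  subst h1
  simp

theorem BS.pow {a b : ℕ} {f : MvPolynomial (Option (Fin n)) L} (hf : BS S e a b f) (m : ℕ) :
    BS S e (m * a) (m * b) (f ^ m) := by
  induction m with
  | zero =>
    rw [pow_zero]
    exact BS.one.mono (by omega) (by omega)
  | succ m ih =>
    rw [pow_succ]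
    exact (ih.mul hf).mono (by rw [Nat.succ_mul]) (by rw [Nat.succ_mul])

theorem BS.prod {ι : Type} (s : Finset ι) {a b : ι → ℕ} {f : ι → MvPolynomial (Option (Fin n)) L}
    (hf : ∀ i ∈ s, BS S e (a i) (b i) (f i)) :
    BS S e (∑ i ∈ s, a i) (∑ i ∈ s, b i) (∏ i ∈ s, f i) := by
  classical
  induction s using Finset.induction_on with
  | empty =>
    rw [Finset.prod_empty, Finset.sum_empty, Finset.sum_empty]
    exact BS.one
  | insert i s hi ih =>
    rw [Finset.prod_insert hi, Finset.sum_insert hi, Finset.sum_insert hi]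
    exact (hf i (Finset.mem_insert_self _ _)).mul
      (ih fun j hj => hf j (Finset.mem_insert_of_mem hj))

theorem BS.exists (he : 1 ≤ e) (f : MvPolynomial (Option (Fin n)) L) : ∃ c, BS S e c c f := by
  refine ⟨f.totalDegree, fun α hα => ?_⟩
  have he2 : f.totalDegree ≤ e * f.totalDegree := Nat.le_mul_of_pos_left _ he
  have h1 := le_totalDegree hα
  rw [Finsupp.sum_fintype _ _ (fun _ => rfl), Fintype.sum_option] at h1
  refine ⟨by omega, fun l _ => ?_, ?_⟩
  · have := Finset.single_le_sum (f := fun l => α (some l)) (fun _ _ => Nat.zero_le _)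
      (Finset.mem_univ l)
    omega
  · have := Finset.sum_le_sum_of_subset (f := fun l => α (some l)) (Finset.subset_univ S)
    omega

theorem BS.add {a b : ℕ} {f g : MvPolynomial (Option (Fin n)) L} (hf : BS S e a b f)
    (hg : BS S e a b g) : BS S e a b (f + g) := by
  classical
  intro α hα
  rcases Finset.mem_union.1 (MvPolynomial.support_add hα) with h | h
  · exact hf α h
  · exact hg α h

theorem BS.sum {ι : Type} (s : Finset ι) {a b : ℕ} {f : ι → MvPolynomial (Option (Fin n)) L}
    (hf : ∀ i ∈ s, BS S e a b (f i)) : BS S e a b (∑ i ∈ s, f i) := by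
  classical
  intro α hα
  obtain ⟨i, hi, h⟩ := Finset.mem_biUnion.1 (MvPolynomial.support_sum hα)
  exact hf i hi α h

theorem BS.C (c : L) : BS S e 0 0 (MvPolynomial.C c : MvPolynomial (Option (Fin n)) L) := by
  intro α hα
  have h1 : α = 0 := by
    have := support_monomial_subset hα
    rwa [Finset.mem_singleton] at this
  subst h1
  simp

theorem BS.X : BS S e 1 0 (MvPolynomial.X none : MvPolynomial (Option (Fin n)) L) := by
  intro α hα
  have h1 : α = Finsupp.single none 1 := by
    have := support_monomial_subset hα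
    rwa [Finset.mem_singleton] at this
  subst h1
  refine ⟨by simp, fun l _ => ?_, ?_⟩
  · rw [Finsupp.single_eq_of_ne (by simp)]
    exact Nat.zero_le _
  · rw [Finset.sum_eq_zero]
    intro l _
    exact Finsupp.single_eq_of_ne (by simp)

/-- the set of exponents -/
def exS (S : Finset (Fin n)) (e a b : ℕ) : Set (Option (Fin n) →₀ ℕ) :=
  {α | α none ≤ a ∧ (∀ l, l ∉ S → α (some l) ≤ e * a) ∧ ∑ l ∈ S, α (some l) ≤ b}

theorem mem_restrictS {a b : ℕ} {f : MvPolynomial (Option (Fin n)) L} :
    f ∈ restrictSupport L (exS S e a b) ↔ BS S e a b f := by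
  rw [mem_restrictSupport_iff]
  exact Iff.rfl

theorem exS_inj (S : Finset (Fin n)) (e a b : ℕ) :
    ∃ F : exS S e a b → (Fin (a + 1) × ({l : Fin n // l ∉ S} → Fin (e * a + 1)) × bd S b),
      Function.Injective F := by
  classical
  refine ⟨fun α => (⟨α.1 none, by have := α.2.1; omega⟩,
    fun l => ⟨α.1 (some l.1), by have := α.2.2.1 l.1 l.2; omega⟩,
    ⟨Finsupp.equivFunOnFinite.symm fun l : S => α.1 (some l.1), by
      rw [mem_bd]
      have h1 := α.2.2.2
      rw [← Finset.sum_coe_sort] at h1
      exact h1⟩), ?_⟩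
  intro α β h
  simp only [Prod.mk.injEq, Fin.mk.injEq, Subtype.mk.injEq] at h
  apply Subtype.ext
  ext i
  cases i with
  | none => exact h.1
  | some l =>
    by_cases hl : l ∈ S
    · have h2 := h.2.2
      have h3 := DFunLike.congr_fun h2 ⟨l, hl⟩
      exact h3
    · have h2 := congrFun h.2.1 ⟨l, hl⟩
      simp only [Fin.mk.injEq] at h2
      exact h2

theorem finrank_restrictS (he : 1 ≤ e) (S : Finset (Fin n)) (a b : ℕ) :
    Module.Finite L (restrictSupport L (exS S e a b)) ∧
      Module.finrank L (restrictSupport L (exS S e a b)) ≤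
        e ^ (n - S.card) * ((a + 1) ^ (n - S.card + 1) * (b + S.card).choose S.card) := by
  classical
  obtain ⟨F, hF⟩ := exS_inj S e a b
  have : Finite (exS S e a b) := Finite.of_injective F hF
  have : Fintype (exS S e a b) := Fintype.ofFinite _
  let B := MvPolynomial.basisRestrictSupport L (exS S e a b)
  refine ⟨Module.Finite.of_basis B, ?_⟩
  rw [Module.finrank_eq_card_basis B]
  refine (Fintype.card_le_of_injective F hF).trans ?_
  rw [Fintype.card_prod, Fintype.card_prod, Fintype.card_fin, Fintype.card_fun, Fintype.card_fin,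
    Fintype.card_coe, card_bd, Fintype.card_coe]
  have h1 : Fintype.card {l : Fin n // l ∉ S} = n - S.card := by
    rw [Fintype.card_subtype_compl, Fintype.card_fin, Fintype.card_coe]
  have h2 : e * a + 1 ≤ e * (a + 1) := by
    rw [mul_add]
    omega
  rw [h1]
  calc (a + 1) * ((e * a + 1) ^ (n - S.card) * (b + S.card).choose S.card)
      ≤ (a + 1) * ((e * (a + 1)) ^ (n - S.card) * (b + S.card).choose S.card) :=
        Nat.mul_le_mul_left _ (Nat.mul_le_mul_right _ (Nat.pow_le_pow_left h2 _))
    _ = _ := by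
        rw [mul_pow, pow_succ]
        ring

end BS

section

variable {L K : Type} [Field L] [Field K] [Algebra L K] {n : ℕ}

/-- **Upper bound** with weights. -/
theorem ub_w [CharZero K] [FiniteDimensional L K] (S : Finset (Fin n)) {e u v : ℕ} (he : 1 ≤ e)
    (w : Option (Fin n) → ℕ) (hw : ∀ i, 0 < w i)
    (E : Option (Fin n) → MvPolynomial (Option (Fin n)) L) (p : Option (Fin n) → K)
    (hE : ∀ i, BS S e u v (E i ^ w i)) (h0 : ∀ i, aeval p (E i) = 0)
    (hnd : ∀ v : Option (Fin n) → K,
      (∀ i, ∑ j, v j * aeval p (pderiv j (E i)) = 0) → v = 0)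
    (hsurj : ∀ z : K, ∃ g : MvPolynomial (Option (Fin n)) L, aeval p g = z) :
    Module.finrank L K * (∏ i, w i) * S.card.factorial ≤
      ((n + 1).factorial * e ^ (n - S.card)) * (u ^ (n - S.card + 1) * v ^ S.card) := by
  classical
  let b := Module.finBasis L K
  choose g hg using fun i => hsurj (b i)
  have hli : LinearIndependent L (fun i => aeval p (g i)) := by
    have h1 : (fun i => aeval p (g i)) = b := funext hg
    rw [h1]
    exact b.linearIndependent
  have hLI := li E p h0 hnd g hli
  -- the small factors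
  let J := (i : Option (Fin n)) → Fin (w i)
  let g2 : Fin (Module.finrank L K) × J → MvPolynomial (Option (Fin n)) L := fun x =>
    g x.1 * ∏ i, E i ^ ((x.2 i : Fin (w i)) : ℕ)
  choose cc hcc using fun i => BS.exists (S := S) he (g2 i)
  set c := ∑ i, cc i with hc
  have hgc : ∀ i, BS S e c c (g2 i) := fun i =>
    (hcc i).mono (Finset.single_le_sum (f := cc) (fun _ _ => Nat.zero_le _) (Finset.mem_univ i))
      (Finset.single_le_sum (f := cc) (fun _ _ => Nat.zero_le _) (Finset.mem_univ i))
  have hSn : S.card ≤ n := by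
    have := Finset.card_le_univ S
    rwa [Fintype.card_fin] at this
  have hsum : n - S.card + 1 + S.card = n + 1 := by omega
  have key : ∀ l : ℕ, (Module.finrank L K * (∏ i, w i)) *
      (l + (n - S.card + 1 + S.card)).choose (n - S.card + 1 + S.card) ≤
      e ^ (n - S.card) *
        ((u * l + c + 1) ^ (n - S.card + 1) * (v * l + c + S.card).choose S.card) := by
    intro l
    set V := restrictSupport L (exS S e (u * l + c) (v * l + c)) with hV
    obtain ⟨hfin, hrank⟩ := finrank_restrictS (L := L) he S (u * l + c) (v * l + c)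
    let h' : (Fin (Module.finrank L K) × J) × bd (Option (Fin n)) l → V := fun x =>
      ⟨g2 x.1 * ∏ i, (E i ^ w i) ^ (x.2.1 i), by
        rw [hV, mem_restrictS]
        have hα : ∑ i, x.2.1 i ≤ l := mem_bd.1 x.2.2
        have h1 : BS S e (∑ i, x.2.1 i * u) (∑ i, x.2.1 i * v) (∏ i, (E i ^ w i) ^ (x.2.1 i)) :=
          BS.prod _ fun i _ => (hE i).pow _
        refine ((hgc x.1).mul h1).mono ?_ ?_
        · rw [← Finset.sum_mul]
          have h2 : (∑ i, x.2.1 i) * u ≤ u * l := by
            rw [mul_comm u]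
            exact Nat.mul_le_mul_right _ hα
          omega
        · rw [← Finset.sum_mul]
          have h2 : (∑ i, x.2.1 i) * v ≤ v * l := by
            rw [mul_comm v]
            exact Nat.mul_le_mul_right _ hα
          omega⟩
    let θ : (Fin (Module.finrank L K) × J) × bd (Option (Fin n)) l →
        Fin (Module.finrank L K) × (Option (Fin n) →₀ ℕ) := fun x =>
      (x.1.1, Finsupp.equivFunOnFinite.symm fun i => ((x.1.2 i : Fin (w i)) : ℕ) + w i * x.2.1 i)
    have hθ : Function.Injective θ := by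
      rintro ⟨⟨t, ε⟩, α⟩ ⟨⟨t', ε'⟩, α'⟩ hx
      simp only [θ, Prod.mk.injEq] at hx
      have h1 : ∀ i, ((ε i : Fin (w i)) : ℕ) + w i * α.1 i =
          ((ε' i : Fin (w i)) : ℕ) + w i * α'.1 i := fun i => DFunLike.congr_fun hx.2 i
      have h2 : ∀ i, ((ε i : Fin (w i)) : ℕ) = ((ε' i : Fin (w i)) : ℕ) := by
        intro i
        have h3 := congrArg (· % w i) (h1 i)
        simp only [Nat.add_mul_mod_self_left, Nat.mod_eq_of_lt (ε i).2,
          Nat.mod_eq_of_lt (ε' i).2] at h3
        exact h3
      have h3 : ∀ i, α.1 i = α'.1 i := by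
        intro i
        have h4 := h1 i
        rw [h2 i] at h4
        exact Nat.eq_of_mul_eq_mul_left (hw i) (Nat.add_left_cancel h4)
      have h4 : ε = ε' := funext fun i => Fin.ext (h2 i)
      have h5 : α = α' := Subtype.ext (Finsupp.ext h3)
      rw [hx.1, h4, h5]
    have hli' : LinearIndependent L h' := by
      refine LinearIndependent.of_comp (Submodule.subtype _) ?_
      have h1 : (Submodule.subtype V) ∘ h' =
          (fun x : Fin (Module.finrank L K) × (Option (Fin n) →₀ ℕ) =>
            g x.1 * ∏ i, E i ^ (x.2 i)) ∘ θ := by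
        funext x
        change g x.1.1 * (∏ i, E i ^ ((x.1.2 i : Fin (w i)) : ℕ)) *
          ∏ i, (E i ^ w i) ^ (x.2.1 i) =
          g x.1.1 * ∏ i, E i ^ (((x.1.2 i : Fin (w i)) : ℕ) + w i * x.2.1 i)
        rw [mul_assoc, ← Finset.prod_mul_distrib]
        congr 1
        refine Finset.prod_congr rfl fun i _ => ?_
        rw [pow_add, pow_mul]
      rw [h1]
      exact hLI.comp _ hθ
    have h1 := hli'.fintype_card_le_finrank
    rw [Fintype.card_prod, Fintype.card_prod, Fintype.card_coe, card_bd, Fintype.card_fin,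
      Fintype.card_option, Fintype.card_fin] at h1
    have hJ : Fintype.card J = ∏ i, w i := by
      rw [Fintype.card_pi]
      exact Finset.prod_congr rfl fun i _ => Fintype.card_fin _
    rw [hJ] at h1
    rw [hsum]
    exact h1.trans hrank
  have h2 := asym4 key
  rw [hsum] at h2
  exact h2

end

end Pool.Agent.TH920.MD
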