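import Mathlib
import Pool.Agent.TH920.MD.UB
import Pool.Agent.TH920.MC.Up
import Pool.Agent.TH920.MA.ND2
import Pool.Agent.TH314.PD.Core2

/-!
# Polynomials of degree at most `e` in some of the variables: the equations, and the upper bound
-/

set_option autoImplicit false

namespace Pool.Agent.TH920.MD

open MvPolynomial Pool.Agent.TH314.PD Pool.Agent.TH920.MA
open Pool.Agent.TH920.MC (DS DS_some DS_none coeff_X_pderiv io_supp nd_S)

noncomputable section

variable {n : ℕ}

/-- degree at most `e` in each variable outside `S`, and at most `q` in the variables of `S` -/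
def Sg (S : Finset (Fin n)) (e q : ℕ) (g : MvPolynomial (Fin n) ℂ) : Prop :=
  ∀ α ∈ g.support, (∀ l, l ∉ S → α l ≤ e) ∧ ∑ l ∈ S, α l ≤ q

theorem DS_none_deg {S : Finset (Fin n)} {e k : ℕ} {g : MvPolynomial (Fin n) ℂ}
    (hg : Sg S e k g) : Sg S e (k - 1) (DS S k none g) := by
  intro α hα
  have h1 : coeff α (DS S k none g) = ((k : ℂ) - ((∑ l ∈ S, α l : ℕ) : ℂ)) * coeff α g := by
    rw [DS_none, coeff_sub, coeff_smul, coeff_sum,
      Finset.sum_congr rfl fun l _ => coeff_X_pderiv g l α, ← Finset.sum_mul, smul_eq_mul,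
      Nat.cast_sum]
    ring
  rw [mem_support_iff, h1] at hα
  have h2 : coeff α g ≠ 0 := right_ne_zero_of_mul hα
  have h3 := left_ne_zero_of_mul hα
  have h4 := hg α (mem_support_iff.2 h2)
  have h5 : ∑ l ∈ S, α l ≠ k := by
    intro h
    rw [h, sub_self] at h3
    exact h3 rfl
  exact ⟨h4.1, by omega⟩

theorem pd_deg {S : Finset (Fin n)} {e k : ℕ} {g : MvPolynomial (Fin n) ℂ} (hg : Sg S e k g)
    (l : Fin n) : Sg S e (if l ∈ S then k - 1 else k) (pderiv l g) := by
  classical
  intro α hα
  rw [mem_support_iff, coeff_pderiv] at hα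
  have h1 : α + Finsupp.single l 1 ∈ g.support := by
    rw [mem_support_iff]
    intro h
    rw [h, zero_mul] at hα
    exact hα rfl
  have h2 := hg _ h1
  simp only [Finsupp.add_apply, Finset.sum_add_distrib] at h2
  refine ⟨fun l' hl' => ?_, ?_⟩
  · have := h2.1 l' hl'
    omega
  · by_cases hl : l ∈ S
    · rw [if_pos hl]
      have h3 : ∑ x ∈ S, (Finsupp.single l 1 : Fin n →₀ ℕ) x = 1 := by
        rw [Finset.sum_eq_single l]
        · exact Finsupp.single_eq_same
        · intro b _ hb
          exact Finsupp.single_eq_of_ne hb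
        · intro h
          exact absurd hl h
      have := h2.2
      omega
    · rw [if_neg hl]
      have := h2.2
      omega

section iota

variable {K : Type} [Field K] [Algebra ℂ K] (L : IntermediateField ℂ K)

theorem io_BS {S : Finset (Fin n)} {e q : ℕ} {g : MvPolynomial (Fin n) ℂ} (hg : Sg S e q g) :
    BS S e 1 q (io L g) := by
  intro β hβ
  obtain ⟨h1, α, hα, h2⟩ := io_supp L hβ
  refine ⟨by omega, fun l hl => ?_, ?_⟩
  · rw [h2, mul_one]
    exact (hg α hα).1 l hl
  · rw [Finset.sum_congr rfl fun l _ => h2 l]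
    exact (hg α hα).2

theorem X_io_BS {S : Finset (Fin n)} {e q : ℕ} {g : MvPolynomial (Fin n) ℂ} (hg : Sg S e q g) :
    BS S e 1 q (X none * io L g) := by
  classical
  intro β hβ
  obtain ⟨a, ha, b, hb, rfl⟩ := Finset.mem_add.1 (MvPolynomial.support_mul _ _ hβ)
  obtain ⟨h1, α, hα, h2⟩ := io_supp L hb
  have h3 : a = Finsupp.single none 1 := by
    have := support_monomial_subset ha
    rwa [Finset.mem_singleton] at this
  subst h3
  have h4 : ∀ l : Fin n, (Finsupp.single none 1 : Option (Fin n) →₀ ℕ) (some l) = 0 := fun l =>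
    Finsupp.single_eq_of_ne (by simp)
  refine ⟨?_, fun l hl => ?_, ?_⟩
  · rw [Finsupp.add_apply, Finsupp.single_eq_same, h1]
  · rw [Finsupp.add_apply, h4, zero_add, h2, mul_one]
    exact (hg α hα).1 l hl
  · rw [Finset.sum_congr rfl fun l _ => by rw [Finsupp.add_apply, h4, zero_add, h2 l]]
    exact (hg α hα).2

theorem C_io_BS {S : Finset (Fin n)} {e q : ℕ} {g : MvPolynomial (Fin n) ℂ} (hg : Sg S e q g)
    (y : L) : BS S e 1 q (C y * io L g) :=
  ((BS.C y).mul (io_BS L hg)).mono (by omega) (by omega)

end iota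

variable {k : ℕ} {K : Type} [Field K] [Algebra ℂ K]

/-- **Upper bound.** -/
theorem upper_md [CharZero K] {e : ℕ} (he : 1 ≤ e) (S : Finset (Fin n)) (al : MvPolynomial (Fin n) ℂ →ₐ[ℂ] K)
    (hal : Function.Injective al) (hb : IsTranscendenceBasis ℂ (fun l : Fin n => al (X l)))
    (hfrac : ∀ z : K, ∃ a b, z = al a / al b)
    (Γ : Fin (n + 2) → MvPolynomial (Fin n) ℂ) (hΓ : ∀ j, Sg S e k (Γ j))
    (x : Fin (n + 2) → K) (p : Fin (n + 1) → MvPolynomial (Fin (n + 2)) ℂ)
    [Algebra.IsAlgebraic (LL x p) K]
    (Y : Fin (n + 2) → K) (hY0 : Y 0 = 1) (hYc : ∀ j : Fin (n + 1), Y j.castSucc = yy x p j)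
    (hr0 : ∑ j, Y j * al (Γ j) = 0) (hr1 : ∀ l, ∑ j, Y j * al (pderiv l (Γ j)) = 0)
    (hlast : Γ (Fin.last (n + 1)) ≠ 0) (hk : 2 ≤ k)
    (hind : ∀ (a : K) (w : Fin n → K),
      (∀ j, a * al (Γ j) + ∑ l, w l * al (pderiv l (Γ j)) = 0) → a = 0 ∧ w = 0) :
    Module.finrank (LL x p) K * (k - 1) ^ (n - S.card) * S.card.factorial ≤
      ((n + 1).factorial * e ^ (n - S.card)) * (k ^ (n - S.card) * (k - 1) ^ S.card) := by
  classical
  have hfd : FiniteDimensional (LL x p) K := finite_dim al hfrac (LL x p)
  set L := LL x p with hL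
  let yL : Fin (n + 1) → L := fun j => ⟨yy x p j, IntermediateField.subset_adjoin _ _ ⟨j, rfl⟩⟩
  let E : Option (Fin n) → MvPolynomial (Option (Fin n)) L := fun i =>
    (∑ j : Fin (n + 1), C (yL j) * io L (DS S k i (Γ j.castSucc))) +
      X none * io L (DS S k i (Γ (Fin.last (n + 1))))
  let pt : Option (Fin n) → K := fun i => match i with
    | none => Y (Fin.last (n + 1))
    | some l => al (X l)
  have hio : ∀ g : MvPolynomial (Fin n) ℂ, aeval pt (io L g) = al g := by
    intro g
    rw [aeval_io]
    have h1 : (aeval (fun l => pt (some l)) : MvPolynomial (Fin n) ℂ →ₐ[ℂ] K) = al := by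
      apply MvPolynomial.algHom_ext
      intro l
      rw [aeval_X]
    rw [h1]
  have hsum : ∀ f : Fin (n + 2) → MvPolynomial (Fin n) ℂ,
      aeval pt ((∑ j : Fin (n + 1), C (yL j) * io L (f j.castSucc)) +
        X none * io L (f (Fin.last (n + 1)))) = ∑ j, Y j * al (f j) := by
    intro f
    have h2 : ∀ j : Fin (n + 1), aeval pt (C (yL j) * io L (f j.castSucc)) =
        Y j.castSucc * al (f j.castSucc) := by
      intro j
      rw [map_mul, aeval_C, hio, hYc]
      rfl
    rw [map_add, map_sum, map_mul, aeval_X, hio, Finset.sum_congr rfl fun j _ => h2 j]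
    exact (Fin.sum_univ_castSucc (fun j => Y j * al (f j))).symm
  have hE0 : ∀ i, aeval pt (E i) = 0 := by
    intro i
    have h0 : aeval pt (E i) = ∑ j, Y j * al (DS S k i (Γ j)) := hsum (fun j => DS S k i (Γ j))
    rw [h0]
    cases i with
    | some l => exact hr1 l
    | none =>
      have h1 : ∀ j, Y j * al (DS S k none (Γ j)) = (k : K) * (Y j * al (Γ j)) -
          ∑ l ∈ S, al (X l) * (Y j * al (pderiv l (Γ j))) := by
        intro j
        rw [DS_none, map_sub, map_sum, map_smul, Algebra.smul_def, map_natCast, mul_sub,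
          Finset.mul_sum]
        congr 1
        · ring
        · refine Finset.sum_congr rfl fun l _ => ?_
          rw [map_mul]
          ring
      rw [Finset.sum_congr rfl fun j _ => h1 j, Finset.sum_sub_distrib, ← Finset.mul_sum, hr0,
        mul_zero, Finset.sum_comm, zero_sub, neg_eq_zero]
      refine Finset.sum_eq_zero fun l _ => ?_
      rw [← Finset.mul_sum, hr1 l, mul_zero]
  have hdn : ∀ i, pderiv none (E i) = io L (DS S k i (Γ (Fin.last (n + 1)))) := by
    intro i
    change pderiv none ((∑ j : Fin (n + 1), C (yL j) * io L (DS S k i (Γ j.castSucc))) +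
      X none * io L (DS S k i (Γ (Fin.last (n + 1))))) = _
    rw [map_add, map_sum, pderiv_mul, pderiv_X_self, pderiv_none_io, mul_zero, add_zero, one_mul]
    rw [Finset.sum_eq_zero, zero_add]
    intro j _
    rw [pderiv_C_mul, pderiv_none_io, mul_zero]
  have hds : ∀ i m, pderiv (some m) (E i) =
      (∑ j : Fin (n + 1), C (yL j) * io L (pderiv m (DS S k i (Γ j.castSucc)))) +
        X none * io L (pderiv m (DS S k i (Γ (Fin.last (n + 1))))) := by
    intro i m
    change pderiv (some m) ((∑ j : Fin (n + 1), C (yL j) * io L (DS S k i (Γ j.castSucc))) +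
      X none * io L (DS S k i (Γ (Fin.last (n + 1))))) = _
    rw [map_add, map_sum, pderiv_mul, pderiv_X_of_ne (by simp), zero_mul, zero_add, pderiv_some_io]
    congr 1
    refine Finset.sum_congr rfl fun j _ => ?_
    rw [pderiv_C_mul, pderiv_some_io]
  -- the weights
  let w : Option (Fin n) → ℕ := fun i => match i with
    | none => k
    | some l => if l ∈ S then k else k - 1
  have hEB : ∀ i q, (∀ j, Sg S e q (DS S k i (Γ j))) → BS S e 1 q (E i) := by
    intro i q h
    exact BS.add (BS.sum _ fun j _ => C_io_BS L (h _) _) (X_io_BS L (h _))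
  have hEw : ∀ i, BS S e k (k * (k - 1)) (E i ^ w i) := by
    intro i
    cases i with
    | none =>
      exact ((hEB none (k - 1) fun j => DS_none_deg (hΓ j)).pow k).mono (by omega) le_rfl
    | some l =>
      have h1 := hEB (some l) _ fun j => pd_deg (hΓ j) l
      by_cases hl : l ∈ S
      · have hw : w (some l) = k := if_pos hl
        rw [if_pos hl] at h1
        rw [hw]
        exact (h1.pow k).mono (by omega) le_rfl
      · have hw : w (some l) = k - 1 := if_neg hl
        rw [if_neg hl] at h1
        rw [hw]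
        exact (h1.pow (k - 1)).mono (by omega) (le_of_eq (mul_comm _ _))
  have hprod : ∏ i, w i = k * (k ^ S.card * (k - 1) ^ (n - S.card)) := by
    rw [Fintype.prod_option]
    change k * ∏ l : Fin n, (if l ∈ S then k else k - 1) = _
    rw [Finset.prod_ite, Finset.prod_const, Finset.prod_const]
    congr 2
    · congr 1
      congr 1
      ext l
      simp
    · congr 1
      have h1 : Finset.filter (fun l => l ∉ S) Finset.univ = Sᶜ := by
        ext l
        simp
      rw [h1, Finset.card_compl, Fintype.card_fin]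
  have hmain := ub_w S he (u := k) (v := k * (k - 1)) w (fun i => by
    cases i with
    | none => exact (by omega : 0 < k)
    | some l =>
      change 0 < if l ∈ S then k else k - 1
      split_ifs <;> omega) E pt hEw hE0 (by
    intro v hv
    have hder : ∀ δ : Derivation ℂ K K, (∀ j, δ (Y j) = 0) → δ = 0 := by
      intro δ hδ
      refine W602.GT.der_eq_zero δ (Set.range (yy x p)) (inferInstanceAs (Algebra.IsAlgebraic (LL x p) K)) ?_
      rintro _ ⟨j, rfl⟩
      rw [← hYc j]
      exact hδ _
    have h1 := nd_S (k := k) S al hal hb Γ Y hY0 hr0 hr1 hlast (by omega) hind hder (v none)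
      (fun l => v (some l)) (fun i => by
        have h2 := hv i
        rw [Fintype.sum_option, hdn, hio] at h2
        rw [← h2]
        congr 1
        refine Finset.sum_congr rfl fun m _ => ?_
        rw [hds, hsum (fun j => pderiv m (DS S k i (Γ j)))])
    funext i
    cases i with
    | none => exact h1.1
    | some l => exact congrFun h1.2 l) (surj al hfrac L pt fun l => rfl)
  rw [hprod] at hmain
  have hkp : 0 < k ^ (S.card + 1) := Nat.pow_pos (by omega)
  refine Nat.le_of_mul_le_mul_left ?_ hkp
  calc k ^ (S.card + 1) * (Module.finrank L K * (k - 1) ^ (n - S.card) * S.card.factorial)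
      = Module.finrank L K * (k * (k ^ S.card * (k - 1) ^ (n - S.card))) * S.card.factorial := by
        ring
    _ ≤ ((n + 1).factorial * e ^ (n - S.card)) *
          (k ^ (n - S.card + 1) * (k * (k - 1)) ^ S.card) := hmain
    _ = k ^ (S.card + 1) *
          (((n + 1).factorial * e ^ (n - S.card)) * (k ^ (n - S.card) * (k - 1) ^ S.card)) := by
        rw [mul_pow]
        ring

end

end Pool.Agent.TH920.MD
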