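import Mathlib
import Pool.Agent.TH920.MD.Cr
import Pool.Agent.TH920.MC.Re

/-!
# Maps of degree at most `e` in some of the parameters: any number of parameters
-/

set_option autoImplicit false

namespace Pool.Agent.TH920.MD

open MvPolynomial Pool.Agent.TH314.PD
open Pool.Agent.TH920.MC (mix_exists Wt sub_wt)

noncomputable section

variable {n N d k : ℕ}

/-- the degrees of a restriction -/
theorem mix_deg {e k : ℕ} {J : Finset (Fin N)} (c : Fin N → ℂ) (A : Fin N → Fin n → ℂ)
    (g : Fin n → Option (Fin N)) (h1 : ∀ s l, g s = some l → l ∈ J)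
    (h3 : ∀ s l, g s = some l → ∀ l', A l' s = if l' = l then 1 else 0)
    (h4 : ∀ s, g s = none → ∀ l ∈ J, A l s = 0) {p : MvPolynomial (Fin N) ℂ}
    (hp : ∀ α ∈ p.support, (∀ l ∈ J, α l ≤ e) ∧ ∑ l ∈ Jᶜ, α l ≤ k) :
    Sg (Finset.univ.filter fun s => g s = none) e k (aeval (sub c A) p) := by
  classical
  intro β hβ
  constructor
  · intro s hs
    rw [Finset.mem_filter, not_and] at hs
    obtain ⟨l, hl⟩ := Option.ne_none_iff_exists'.1 (hs (Finset.mem_univ s))
    have h5 : Wt (fun l' : Fin N => if l' = l then 1 else 0) e p := by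
      intro α hα
      rw [Finset.sum_congr rfl fun l' _ => (ite_mul (l' = l) 1 0 (α l'))]
      simp only [one_mul, zero_mul]
      rw [Finset.sum_ite_eq' Finset.univ l fun l' => α l', if_pos (Finset.mem_univ _)]
      exact (hp α hα).1 l (h1 s l hl)
    have h6 := sub_wt c A _ (fun s' : Fin n => if s' = s then 1 else 0) (by
      intro l' s' hA
      by_cases hs' : s' = s
      · subst hs'
        rw [h3 s' l hl] at hA
        by_cases hl' : l' = l
        · rw [if_pos rfl, if_pos hl']
        · rw [if_neg hl'] at hA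
          exact absurd rfl hA
      · rw [if_neg hs']
        exact Nat.zero_le _) h5 β hβ
    rw [Finset.sum_congr rfl fun l' _ => (ite_mul (l' = s) 1 0 (β l'))] at h6
    simp only [one_mul, zero_mul] at h6
    rw [Finset.sum_ite_eq' Finset.univ s fun l' => β l', if_pos (Finset.mem_univ _)] at h6
    exact h6
  · have h5 : Wt (fun l' : Fin N => if l' ∈ Jᶜ then 1 else 0) k p := by
      intro α hα
      rw [Finset.sum_congr rfl fun l' _ => (ite_mul (l' ∈ Jᶜ) 1 0 (α l'))]
      simp only [one_mul, zero_mul]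
      rw [← Finset.sum_filter, Finset.filter_mem_eq_inter, Finset.univ_inter]
      exact (hp α hα).2
    have h6 := sub_wt c A _ (fun s' : Fin n => if g s' = none then 1 else 0) (by
      intro l' s' hA
      by_cases hs' : g s' = none
      · have hl' : l' ∉ J := fun h => hA (h4 s' hs' l' h)
        rw [if_pos hs', if_pos (Finset.mem_compl.2 hl')]
      · rw [if_neg hs']
        exact Nat.zero_le _) h5 β hβ
    rw [Finset.sum_congr rfl fun l' _ => (ite_mul (g l' = none) 1 0 (β l'))] at h6
    simp only [one_mul, zero_mul] at h6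
    rw [← Finset.sum_filter] at h6
    exact h6

/-- any number of parameters: a dominant restriction whose degree is bounded -/
theorem param_md {e : ℕ} (he : 1 ≤ e) (hd : 2 ≤ d) (F : MvPolynomial (Fin (n + 2)) ℂ)
    (hF : F.IsHomogeneous d)
    (hsm : ∀ z : Fin (n + 2) → ℂ, (∀ i, eval z (pderiv i F) = 0) → z = 0)
    (J : Finset (Fin N)) (G : Fin (n + 2) → MvPolynomial (Fin N) ℂ)
    (hG : ∀ i, ∀ α ∈ (G i).support, (∀ l ∈ J, α l ≤ e) ∧ ∑ l ∈ Jᶜ, α l ≤ k) (hk : 2 ≤ k)
    (hFG : aeval G F = 0)
    (hdom : ∀ q (H : MvPolynomial (Fin (n + 2)) ℂ), H.IsHomogeneous q → aeval G H = 0 → F ∣ H) :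
    ∃ (c : Fin N → ℂ) (A : Fin N → Fin n → ℂ) (r : ℕ), r ≤ J.card ∧ r ≤ n ∧
      aeval (fun i => aeval (sub c A) (G i)) F = 0 ∧
      (∀ q (H : MvPolynomial (Fin (n + 2)) ℂ), H.IsHomogeneous q →
        aeval (fun i => aeval (sub c A) (G i)) H = 0 → F ∣ H) ∧
      FiniteDimensional (ratioField fun i =>
        algebraMap (MvPolynomial (Fin n) ℂ) (FractionRing (MvPolynomial (Fin n) ℂ))
          (aeval (sub c A) (G i))) (FractionRing (MvPolynomial (Fin n) ℂ)) ∧
      Module.finrank (ratioField fun i =>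
        algebraMap (MvPolynomial (Fin n) ℂ) (FractionRing (MvPolynomial (Fin n) ℂ))
          (aeval (sub c A) (G i))) (FractionRing (MvPolynomial (Fin n) ℂ)) * (d * (d - 1) ^ n) *
          ((k - 1) ^ r * (n - r).factorial) ≤
        ((n + 1).factorial * e ^ r) * (k ^ r * (k - 1) ^ (n - r)) := by
  classical
  obtain ⟨c, A, g, g1, g2, g3, g4, h1, h2⟩ := mix_exists J (by omega) hF (ne_zero_of_smooth hsm) G
    hFG hdom
  set S : Finset (Fin n) := Finset.univ.filter fun s => g s = none with hS
  obtain ⟨h3, h4⟩ := bound_md he hd F hF hsm S (fun i => aeval (sub c A) (G i))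
    (fun i => mix_deg c A g g1 g3 g4 (hG i)) hk h1 h2
  have hSn : S.card ≤ n := by
    have := Finset.card_le_univ S
    rwa [Fintype.card_fin] at this
  have hcard : Sᶜ.card ≤ J.card := by
    have e1 : (Sᶜ.image g).card = Sᶜ.card := by
      refine Finset.card_image_of_injOn ?_
      intro s hs s' hs' hss
      have hs1 : g s ≠ none := by
        intro h
        exact Finset.mem_compl.1 hs (Finset.mem_filter.2 ⟨Finset.mem_univ _, h⟩)
      obtain ⟨l, hl⟩ := Option.ne_none_iff_exists'.1 hs1
      exact g2 s s' l hl (hss ▸ hl)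
    have e2 : Sᶜ.image g ⊆ J.image some := by
      intro o ho
      obtain ⟨s, hs, rfl⟩ := Finset.mem_image.1 ho
      have hs1 : g s ≠ none := by
        intro h
        exact Finset.mem_compl.1 hs (Finset.mem_filter.2 ⟨Finset.mem_univ _, h⟩)
      obtain ⟨l, hl⟩ := Option.ne_none_iff_exists'.1 hs1
      rw [hl]
      exact Finset.mem_image.2 ⟨l, g1 s l hl, rfl⟩
    rw [← e1]
    exact (Finset.card_le_card e2).trans Finset.card_image_le
  rw [Finset.card_compl, Fintype.card_fin] at hcard
  have h6 : n - (n - S.card) = S.card := by omega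
  refine ⟨c, A, n - S.card, hcard, by omega, h1, h2, h3, ?_⟩
  rw [h6]
  exact h4

end

end Pool.Agent.TH920.MD
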